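import Pool.Agent.H23.Ori3
import Pool.Agent.H11.CL3
import Pool.Agent.H11.GDefs

set_option autoImplicit false

namespace Pool.Agent.Results.MP_e16607_lc.Hard
open Pool.Agent.H11.PT Pool.Agent.H23.Ori Finset

/-- some proper colouring uses, on every vertex set `S` with `P S`, at most `k` colours more than
the chromatic number of the subgraph induced on `S` -/
def DiscLE {V : Type} (G : SimpleGraph V) (P : Finset V → Prop) (k : ℕ) : Prop :=
  ∃ c : G.Coloring ℕ, ∀ S : Finset V, P S →
    (#(S.image c) : ℕ∞) ≤ (G.induce (S : Set V)).chromaticNumber + k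

/-- chromatic discrepancy at most `k` -/
def L1 (y : (ℕ × List (ℕ × ℕ)) × ℕ) : Prop := DiscLE (gr y.1.1 y.1.2) (fun _ => True) y.2

/-- the same over connected induced subgraphs -/
def L2 (y : (ℕ × List (ℕ × ℕ)) × ℕ) : Prop :=
  DiscLE (gr y.1.1 y.1.2) (fun S => ((gr y.1.1 y.1.2).induce (S : Set _)).Connected) y.2

abbrev F := List (Lit × Lit × Lit)
abbrev At := ℕ × ℕ × ℕ

def lit (φ : F) (i p : ℕ) : Lit :=
  [(φ.getD i ((0, true), (0, true), (0, true))).1, (φ.getD i ((0, true), (0, true), (0, true))).2.1,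
    (φ.getD i ((0, true), (0, true), (0, true))).2.2].getD p (0, true)
def R (φ : F) (a b : At) : Prop := ¬ a.1 = b.1 ∧ (a.2.2 = 3 ∨ b.2.2 = 3 ∨ a.1 = φ.length + 2 ∨
  b.1 = φ.length + 2 ∨ ¬ a.2.1 = b.2.1 ∨ (a.1 < φ.length ∧ b.1 < φ.length ∧
    (lit φ a.1 a.2.2).1 = (lit φ b.1 b.2.2).1 ∧ ¬ (lit φ a.1 a.2.2).2 = (lit φ b.1 b.2.2).2))
def AT (φ : F) : List At := List.range (φ.length + 3) ×ˢ List.range (φ.length + 2) ×ˢ List.range 4
def av (φ : F) (w : ℕ) : At := (AT φ).getD w (0, 0, 0)
noncomputable def red (φ : F) : (ℕ × List (ℕ × ℕ)) × ℕ := (((AT φ).length,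
  (List.range (AT φ).length ×ˢ List.range (AT φ).length).filter fun p =>
    dc (R φ (av φ p.1) (av φ p.2))), φ.length)

theorem red_pt : PT red := by
  have h : PT AT := by unfold AT; fun_prop
  have h2 : PT fun y : F × At × At => dc (R y.1 y.2.1 y.2.2) := by unfold R lit; fun_prop
  have h3 : PT fun y : F × ℕ => av y.1 y.2 := by unfold av; fun_prop
  unfold red
  exact PT.pair (PT.pair (by fun_prop) (PT.filter (by fun_prop) (h2.comp (PT.pair (by fun_prop)
    (PT.pair (h3.comp (g := fun q : F × ℕ × ℕ => (q.1, q.2.1)) (by fun_prop))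
    (h3.comp (g := fun q : F × ℕ × ℕ => (q.1, q.2.2)) (by fun_prop))))))) (by fun_prop)

variable {φ : F}

noncomputable abbrev G (φ : F) := gr (red φ).1.1 (red φ).1.2

theorem adj (u v : Fin (red φ).1.1) : (G φ).Adj u v ↔ R φ (av φ u) (av φ v) := by
  have hu : u.val < (AT φ).length := u.2
  have hv : v.val < (AT φ).length := v.2
  have s : ∀ a b, R φ a b → R φ b a := fun a b h => by
    simp only [R, @eq_comm _ b.1 a.1, @eq_comm _ b.2.1 a.2.1, @eq_comm _ (lit φ b.1 _).1,
      @eq_comm _ (lit φ b.1 _).2] at *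
    tauto
  simp only [gr, SimpleGraph.fromRel_adj, red, List.mem_filter, List.mem_product, List.mem_range,
    dc_iff, hu, hv, true_and]
  exact ⟨fun h => h.2.elim id (s _ _), fun h => ⟨fun e => h.1 (e ▸ rfl), .inl h⟩⟩

theorem mAT (a : At) : a ∈ AT φ ↔ a.1 < φ.length + 3 ∧ a.2.1 < φ.length + 2 ∧ a.2.2 < 4 := by
  obtain ⟨a, b, c⟩ := a
  simp [AT]

theorem bd (w : Fin (red φ).1.1) :
    (av φ w).1 < φ.length + 3 ∧ (av φ w).2.1 < φ.length + 2 ∧ (av φ w).2.2 < 4 := by
  have : av φ w ∈ AT φ := by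
    rw [av, List.getD_eq_getElem _ _ w.2]; exact List.getElem_mem _
  exact (mAT _).1 this

theorem vx : ∃ v : At → Fin (red φ).1.1, ∀ a : At, a.1 < φ.length + 3 → a.2.1 < φ.length + 2 →
    a.2.2 < 4 → av φ (v a) = a := by
  have e : ∀ a : At, a.1 < φ.length + 3 → a.2.1 < φ.length + 2 → a.2.2 < 4 →
      ∃ w : Fin (red φ).1.1, av φ w = a := fun a x y z => by
    obtain ⟨i, b, c⟩ := List.getElem_of_mem ((mAT a).2 ⟨x, y, z⟩)
    exact ⟨⟨i, b⟩, (List.getD_eq_getElem _ _ b).trans c⟩
  obtain ⟨w, -⟩ := e (0, 0, 0) (by simp) (by simp) (by simp)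
  have : ∀ a : At, ∃ w : Fin (red φ).1.1, a.1 < φ.length + 3 → a.2.1 < φ.length + 2 →
      a.2.2 < 4 → av φ w = a := fun a => by
    by_cases c : a.1 < φ.length + 3 ∧ a.2.1 < φ.length + 2 ∧ a.2.2 < 4
    · obtain ⟨w, d⟩ := e a c.1 c.2.1 c.2.2
      exact ⟨w, fun _ _ _ => d⟩
    · exact ⟨w, fun x y z => absurd ⟨x, y, z⟩ c⟩
  choose v h using this
  exact ⟨v, h⟩

theorem cq {V : Type} {H : SimpleGraph V} {S K : Finset V} (s : K ⊆ S) (k : H.IsClique K) :
    (#K : ℕ∞) ≤ (H.induce (S : Set V)).chromaticNumber := by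
  classical
  have := SimpleGraph.IsClique.card_le_chromaticNumber (G := H.induce (S : Set V))
    (s := K.subtype (· ∈ (S : Set V))) fun x a y b c =>
      k (mem_subtype.1 a) (mem_subtype.1 b) fun e => c (Subtype.ext e)
  rwa [card_subtype, filter_true_of_mem fun x a => mem_coe.2 (s a)] at this

theorem con {V : Type} {H : SimpleGraph V} {S : Finset V} {u : V} (a : u ∈ S)
    (h : ∀ v ∈ S, ∃ w ∈ S, H.Adj u w ∧ H.Adj w v ∨ H.Adj u v) : (H.induce (S : Set V)).Connected := by
  refine (SimpleGraph.connected_iff_exists_forall_reachable _).2 ⟨⟨u, a⟩, fun v => ?_⟩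
  obtain ⟨w, b, c | c⟩ := h v v.2
  · exact (SimpleGraph.Adj.reachable (v := ⟨w, b⟩) c.1).trans
      (SimpleGraph.Adj.reachable (show (H.induce (S : Set V)).Adj ⟨w, b⟩ v from c.2))
  · exact SimpleGraph.Adj.reachable c

noncomputable def c0 (φ : F) : (G φ).Coloring ℕ := .mk (fun v => (av φ v).1) fun h => ((adj _ _).1 h).1

theorem sound (h : ¬ SAT3 φ) : L1 (red φ) := by
  classical
  refine ⟨c0 φ, fun S _ => ?_⟩
  obtain ⟨K, k1, k2, k3⟩ : ∃ K ⊆ S.filter fun v => (av φ v.val).1 < φ.length + 2, (G φ).IsClique K ∧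
      #((S.filter fun v => (av φ v.val).1 < φ.length + 2).image (c0 φ)) ≤ #K + φ.length := by
    generalize e : S.filter (fun v => (av φ v.val).1 < φ.length + 2) = T
    have t : T.image (c0 φ) ⊆ range (φ.length + 2) := fun i a => by
      obtain ⟨v, b, rfl⟩ := mem_image.1 a
      exact mem_range.2 (mem_filter.1 (e.ge b)).2
    have t' := card_le_card t
    rw [card_range] at t'
    by_cases c : ∃ u ∈ T, ∃ v ∈ T, (G φ).Adj u v
    · obtain ⟨u, a, v, b, c⟩ := c
      exact ⟨{u, v}, by simp [insert_subset_iff, a, b], by simpa using fun _ => c,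
        by rw [card_pair c.ne]; omega⟩
    by_cases d : T.image (c0 φ) = range (φ.length + 2)
    · have s : ∀ i, ∃ p, i < φ.length + 2 → ∃ v ∈ T, (av φ v.val).1 = i ∧ (av φ v.val).2.2 = p := fun i => by
        by_cases f : i < φ.length + 2
        · obtain ⟨v, a, b⟩ := mem_image.1 (d ▸ mem_range.2 f : i ∈ T.image (c0 φ))
          exact ⟨_, fun _ => ⟨v, a, b, rfl⟩⟩
        · exact ⟨0, fun g => absurd g f⟩
      choose p s using s
      have n : ∀ i < φ.length, ∀ j < φ.length + 2, i ≠ j → p i < 3 ∧ (j < φ.length →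
          (lit φ i (p i)).1 = (lit φ j (p j)).1 → (lit φ i (p i)).2 = (lit φ j (p j)).2) :=
        fun i a j b f => by
          obtain ⟨u, x, rfl, y⟩ := s i (by omega)
          obtain ⟨v, x', rfl, y'⟩ := s j b
          have : ¬ R φ _ _ := fun g => c ⟨u, x, v, x', (adj _ _).2 g⟩
          have := bd u
          rw [← y, ← y']
          unfold R at *
          refine ⟨by omega, by tauto⟩
      refine absurd ⟨fun x => decide (∃ i < φ.length, lit φ i (p i) = (x, true)), fun l a => ?_⟩ h
      obtain ⟨i, b, rfl⟩ := List.getElem_of_mem a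
      have q : decide (∃ j < φ.length, lit φ j (p j) = ((lit φ i (p i)).1, true)) =
          (lit φ i (p i)).2 := by
        rw [Bool.eq_iff_iff, decide_eq_true_eq]
        refine ⟨fun ⟨j, f, g⟩ => ?_, fun f => ⟨i, b, Prod.ext rfl f⟩⟩
        by_cases o : i = j
        · rw [o, g]
        · rw [(n i b j (by omega) o).2 f (by rw [g]), g]
      have := (n i b φ.length (by omega) (by omega)).1
      generalize p i = r at *
      simp only [lit, List.getD_eq_getElem _ _ b] at q ⊢
      interval_cases r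
      exacts [.inl q, .inr (.inl q), .inr (.inr q)]
    have := card_lt_card (lt_of_le_of_ne t d)
    rw [card_range] at this
    obtain rfl | ⟨v, a⟩ := T.eq_empty_or_nonempty
    · exact ⟨∅, by simp⟩
    · exact ⟨{v}, by simpa using a, by simp, by simp; omega⟩
  by_cases c : ∃ u ∈ S, ¬ (av φ u.val).1 < φ.length + 2
  · obtain ⟨u, a, b⟩ := c
    have n : u ∉ K := fun f => b (mem_filter.1 (k1 f)).2
    have := bd u
    refine le_trans ?_ (add_le_add_left (cq (K := insert u K) (insert_subset a (k1.trans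
      (filter_subset _ _))) (by
        rw [coe_insert]
        refine k2.insert fun v f _ => (adj _ _).2 ?_
        have := (mem_filter.1 (k1 f)).2
        exact ⟨by omega, .inr (.inr (.inl (by omega)))⟩)) _)
    have := (card_le_card (show S.image (c0 φ) ⊆ insert (φ.length + 2) ((S.filter fun v =>
      (av φ v.val).1 < φ.length + 2).image (c0 φ)) from fun i f => by
        obtain ⟨v, g, rfl⟩ := mem_image.1 f
        have := bd v
        by_cases o : (av φ v).1 < φ.length + 2
        · exact mem_insert_of_mem (mem_image_of_mem _ (mem_filter.2 ⟨g, o⟩))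
        · exact mem_insert.2 (.inl (show (av φ v).1 = _ by omega)))).trans (card_insert_le _ _)
    rw [card_insert_of_notMem n]
    exact_mod_cast (by omega : #(S.image (c0 φ)) ≤ #K + 1 + φ.length)
  · rw [filter_true_of_mem (by simpa using c)] at k1 k3
    exact le_trans (by exact_mod_cast k3) (add_le_add_left (cq k1 k2) _)

theorem complete (h : SAT3 φ) (l : L2 (red φ)) : False := by
  classical
  obtain ⟨σ, h⟩ := h
  obtain ⟨c, l⟩ := l
  obtain ⟨v, hv⟩ := vx (φ := φ)
  have s : ∀ i, ∃ p < 3, i < φ.length → σ (lit φ i p).1 = (lit φ i p).2 := fun i => by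
    by_cases a : i < φ.length
    · simp only [lit, List.getD_eq_getElem _ _ a]
      obtain g | g | g := h _ (List.getElem_mem a)
      exacts [⟨0, by omega, fun _ => g⟩, ⟨1, by omega, fun _ => g⟩, ⟨2, by omega, fun _ => g⟩]
    · exact ⟨0, by omega, fun b => absurd b a⟩
  choose p p1 p2 using s
  have ne : ∀ a b : At, (a.1 < φ.length + 3 ∧ a.2.1 < φ.length + 2 ∧ a.2.2 < 4) →
      (b.1 < φ.length + 3 ∧ b.2.1 < φ.length + 2 ∧ b.2.2 < 4) → R φ a b → c (v a) ≠ c (v b) :=
    fun a b x y z => c.valid ((adj _ _).2 (by rwa [hv a x.1 x.2.1 x.2.2, hv b y.1 y.2.1 y.2.2]))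
  have fin : ∀ (S : Finset (Fin (red φ).1.1)) (j : ℕ), ((G φ).induce (S : Set _)).Connected →
      ((G φ).induce (S : Set _)).Colorable j → #(S.image c) ≤ j + φ.length := fun S j a b => by
    exact_mod_cast (l S a).trans (add_le_add_left b.chromaticNumber_le _)
  by_cases e : ∃ r < φ.length + 2, ∀ i < φ.length + 2, ∀ j < φ.length + 2,
      c (v (i, r, p i)) = c (v (j, r, p j)) → i = j
  · obtain ⟨r, a, b⟩ := e
    have w : ∀ i < φ.length + 3, av φ (v (i, r, p i)) = (i, r, p i) := fun i d =>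
      hv _ d a ((p1 i).trans (by omega))
    have := fin ((range (φ.length + 3)).image fun i => v (i, r, p i)) 2
      (con (mem_image_of_mem _ (mem_range.2 (show φ.length + 2 < _ by omega))) fun x d => by
        obtain ⟨i, d', rfl⟩ := mem_image.1 d
        have d := mem_range.1 d'
        refine ⟨_, mem_image_of_mem _ (mem_range.2 (show 0 < _ by omega)), ?_⟩
        simp only [adj, w _ d, w 0 (by omega), w (φ.length + 2) (by omega), R]
        by_cases o : i = φ.length + 2 <;> simp [o, eq_comm])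
      ⟨.mk (fun x => if (av φ x.1).1 = φ.length + 2 then 0 else 1) fun {x y} d => by
        obtain ⟨i, f, f'⟩ := mem_image.1 (mem_coe.1 x.2)
        obtain ⟨j, g, g'⟩ := mem_image.1 (mem_coe.1 y.2)
        have d : R φ (av φ x.1) (av φ y.1) := (adj _ _).1 d
        rw [← f', ← g', w _ (mem_range.1 f), w _ (mem_range.1 g)] at d ⊢
        have := p1 i
        have := p1 j
        have q : i = φ.length + 2 ∨ j = φ.length + 2 := by
          obtain ⟨-, e | e | e | e | e | ⟨x, y, z, e⟩⟩ := d
          exacts [by simp only [] at e; omega, by simp only [] at e; omega, .inl e, .inr e,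
            absurd rfl e, absurd ((p2 i x).symm.trans (z ▸ p2 j y)) e]
        have := d.1
        simp only [] at this ⊢
        split_ifs <;> first | omega | decide⟩
    rw [image_image, card_image_of_injOn, card_range] at this
    · omega
    intro i x j y z
    have x := mem_range.1 x
    have y := mem_range.1 y
    by_contra o
    by_cases f : i < φ.length + 2 ∧ j < φ.length + 2
    · exact o (b i f.1 j f.2 z)
    · exact ne (i, r, p i) (j, r, p j) ⟨x, a, (p1 i).trans (by omega)⟩ ⟨y, a, (p1 j).trans (by omega)⟩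
        ⟨o, by simp only []; omega⟩ z
  have e : ∀ r, ∃ i j, r < φ.length + 2 → i < φ.length + 2 ∧ j < φ.length + 2 ∧ i ≠ j ∧
      c (v (i, r, p i)) = c (v (j, r, p j)) := fun r => by
    by_contra! f
    exact e ⟨r, (f 0 0).1, fun i a j b d => by_contra fun g => (f i j).2 a b g d⟩
  choose i j e using e
  have w : ∀ t < φ.length + 3, av φ (v (t, 0, 3)) = (t, 0, 3) := fun t d => hv _ d (by simp) (by simp)
  have := fin univ (φ.length + 3) (con (u := v (φ.length + 2, 0, 3)) (mem_univ _) fun x _ =>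
    ⟨v (0, 0, 3), mem_univ _, by
      simp only [adj, w 0 (by omega), w (φ.length + 2) (by omega), R]
      by_cases o : φ.length + 2 = (av φ x.val).1 <;> simp [o]
      omega⟩) ⟨.mk (fun x => ⟨(av φ x.1).1, (bd x.1).1⟩) fun d f =>
        ((adj _ _).1 d).1 (congrArg Fin.val f)⟩
  have k : ∀ r < φ.length + 2, ∀ a : At, (a.1 < φ.length + 3 ∧ a.2.1 < φ.length + 2 ∧ a.2.2 < 4) →
      a.2.2 = 3 ∨ a.2.1 ≠ r → c (v a) ≠ c (v (i r, r, p (i r))) := fun r x a y z => by
    obtain ⟨e1, e2, e3, e4⟩ := e r x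
    by_cases o : a.1 = i r
    · rw [e4]
      exact ne a _ y ⟨by simp only []; omega, x, (p1 _).trans (by omega)⟩
        ⟨by simp only []; omega, by tauto⟩
    · exact ne a _ y ⟨by simp only []; omega, x, (p1 _).trans (by omega)⟩ ⟨o, by tauto⟩
  have q := card_le_card_of_injOn (s := range (2 * φ.length + 5)) (t := univ.image c)
    (fun t => if t < φ.length + 3 then c (v (t, 0, 3)) else
      c (v (i (t - (φ.length + 3)), t - (φ.length + 3), p (i (t - (φ.length + 3))))))
    (fun t _ => by simp only []; split_ifs <;> exact mem_coe.2 (mem_image_of_mem _ (mem_univ _)))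
    fun a x b y z => by
      have x := mem_range.1 x
      have y := mem_range.1 y
      by_contra o
      simp only [] at z
      split_ifs at z with f g g
      · exact ne (a, 0, 3) (b, 0, 3) ⟨f, by simp, by simp⟩ ⟨g, by simp, by simp⟩ ⟨o, .inl rfl⟩ z
      · exact k _ (by omega) (a, 0, 3) ⟨f, by simp, by simp⟩ (.inl rfl) z
      · exact k _ (by omega) (b, 0, 3) ⟨g, by simp, by simp⟩ (.inl rfl) z.symm
      · have := e (a - (φ.length + 3)) (by omega)
        exact k _ (by omega) (_, _, _) ⟨by simp only []; omega, by simp only []; omega,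
          (p1 _).trans (by omega)⟩ (.inr (by simp only []; omega)) z
  rw [card_range] at q
  omega

theorem result : (NPHard fun y => ¬ L1 y) ∧ NPHard fun y => ¬ L2 y := by
  have e : ∀ y, L1 y → L2 y := fun y ⟨c, h⟩ => ⟨c, fun S _ => h S trivial⟩
  exact ⟨(hard_SAT3.red red red_pt fun _ => ⟨fun a b => complete a (e _ b),
    fun h => by_contra fun c => h (sound c)⟩).npHard, (hard_SAT3.red red red_pt fun _ =>
      ⟨complete, fun h => by_contra fun c => h (e _ (sound c))⟩).npHard⟩

end Pool.Agent.Results.MP_e16607_lc.Hard
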